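import Pool.Agent.Lib.MP_5a17c4_lc.P.Main

namespace Pool.Agent.Results.MP_5a17c4_lc.ObjEasy

open Pool.Agent.Lib.MP_5a17c4_lc

/-- For `n ≥ 3`, consensus allocation with at most `n (n - 1) - 1` shared objects has an algorithm
that runs generically in polynomial time, the good set being the whole ball. -/
theorem result (n : ℕ) (hn : 3 ≤ n) : ∃ A : Turing.TM2ComputableAux Bool Bool,
    ∀ (c : ℝ) (f : Polynomial ℕ),
      Decides c (ConsObj n (n * (n - 1) - 1)) A ∧
      InBall (n := n) c (fun t => f.eval t) (fun m x => ball c x (f.eval (m * n))) ∧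
      CondA (n := n) c A (fun m x => ball c x (f.eval (m * n))) ∧
      CondB (n := n) c (fun t => f.eval t) (fun m x => ball c x (f.eval (m * n))) ∧
      CondC (n := n) c (fun m x => ball c x (f.eval (m * n))) :=
  P.generic hn

end Pool.Agent.Results.MP_5a17c4_lc.ObjEasy
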