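import Pool.Agent.Lib.MP_5a17c4_lc.Det

namespace Pool.Agent.Results.MP_5a17c4_lc.ObjHard

open Pool.Agent.Lib.MP_5a17c4_lc

/-- For `n ≤ s ≤ n (n - 1) - 2`, if an algorithm for consensus allocation with at most `s` shared
objects satisfies conditions (a) and (c) of generic polynomial time, then `P = NP`. -/
theorem result (n s : ℕ) (hs1 : n ≤ s) (hs2 : s + 2 ≤ n * (n - 1)) (c : ℝ) (hc : 0 < c)
    (A : Turing.TM2ComputableAux Bool Bool) (f : ℕ → ℕ)
    (G : ∀ m, Inst n m → Finset (Inst n m))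
    (hA : Decides c (ConsObj n s) A) (hG : InBall c f G) (ha : CondA c A G) (hc' : CondC c G) :
    N68a2faeb.P = N68a2faeb.NP :=
  det_main hs1 hs2 hc hA hG ha hc'

end Pool.Agent.Results.MP_5a17c4_lc.ObjHard
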