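import Pool.Agent.Lib.MP_5a17c4_lc.Rand

namespace Pool.Agent.Results.MP_5a17c4_lc.ShRand

open Pool.Agent.Lib.MP_5a17c4_lc

/-- For all `n ≥ 2` and `s < n (n - 1)`, if an algorithm for consensus allocation with at most `s`
sharings satisfies conditions (a) and (b) of generic polynomial time, then `NP = ZPP`. -/
theorem result (n s : ℕ) (hn : 2 ≤ n) (hs : s < n * (n - 1)) (c : ℝ) (hc : 0 < c)
    (A : Turing.TM2ComputableAux Bool Bool) (f : ℕ → ℕ)
    (G : ∀ m, Inst n m → Finset (Inst n m))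
    (hA : Decides c (ConsSh n s) A) (hG : InBall c f G) (ha : CondA c A G) (hb : CondB c f G) :
    N68a2faeb.NP = ZPP :=
  zpp_sh hn hs hc hA hG ha hb

end Pool.Agent.Results.MP_5a17c4_lc.ShRand
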